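import Pool.Agent.V11110.MGA
import Pool.Agent.Helper240.ZFM.Q5b

/-!
# `D⁽¹⁾(X) = A⁽¹⁾(X)` for nice compact plane sets

Let `X` be a uniformly regular, polynomially convex compact plane set whose interior is connected
and dense in `X`.  Then every function of `A⁽¹⁾(X)` belongs to `D⁽¹⁾(X)`, so the two algebras
coincide.  The proof: by Mergelyan's theorem (starting library) the continuous extension of `f'` is
a uniform limit of polynomials on `X`; the primitives of these polynomials converge on `X`, because
any two points of `X` are joined in `X` by a path of controlled length, and the limit is a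
primitive in the sense of `D⁽¹⁾(X)`; it agrees with `f` up to a constant on the connected interior.
-/

open Set Filter Topology Metric
open scoped ENNReal

namespace Pool.Agent.Results.MP_8e12aa_an.EqualAlgebras

/-- `X` is uniformly regular: for some `k > 0` any two points `z, w` of `X` are joined inside `X`
by a (continuous) path `γ : [0,1] → X` of length (total variation) at most `k |z - w|`. -/
def UniformlyRegular (X : Set ℂ) : Prop :=
  ∃ k : ℝ, 0 < k ∧ ∀ z ∈ X, ∀ w ∈ X, ∃ γ : ℝ → ℂ, ContinuousOn γ (Icc 0 1) ∧
    (∀ t ∈ Icc (0 : ℝ) 1, γ t ∈ X) ∧ γ 0 = z ∧ γ 1 = w ∧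
    eVariationOn γ (Icc 0 1) ≤ ENNReal.ofReal (k * ‖z - w‖)

/-- `D⁽¹⁾(X)`: the continuous functions on `X` with a complex derivative (limit of difference
quotients within `X`) at every point of `X`, the derivative `g` being continuous on `X`.  The
function `F` is an arbitrary extension of `f` to the plane, its values outside `X` play no role. -/
def D1 (X : Set ℂ) : Set C(X, ℂ) :=
  {f | ∃ (F : ℂ → ℂ) (g : C(X, ℂ)), (∀ z : X, F z = f z) ∧
    ∀ a : X, HasDerivWithinAt F (g a) X a}

/-- `A⁽¹⁾(X)`: the continuous functions on `X` which are analytic on the interior of `X` and such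
that the derivative on the interior extends to a continuous function `g` on `X`.  The function `F`
is an arbitrary extension of `f` to the plane, its values outside `X` play no role. -/
def A1 (X : Set ℂ) : Set C(X, ℂ) :=
  {f | ∃ (F : ℂ → ℂ) (g : C(X, ℂ)), (∀ z : X, F z = f z) ∧
    DifferentiableOn ℂ F (interior X) ∧ ∀ a : X, (a : ℂ) ∈ interior X → g a = deriv F a}

theorem D1_subset (X : Set ℂ) : D1 X ⊆ A1 X := by
  rintro f ⟨F, g, hF, hg⟩
  have hd : ∀ a : X, (a : ℂ) ∈ interior X → HasDerivAt F (g a) a := fun a ha =>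
    (hg a).hasDerivAt (mem_interior_iff_mem_nhds.1 ha)
  refine ⟨F, g, hF, fun a ha => ?_, fun a ha => (hd a ha).deriv.symm⟩
  exact (hd ⟨a, interior_subset ha⟩ ha).differentiableAt.differentiableWithinAt

theorem A1_subset (X : Set ℂ) (hX : IsCompact X)
    (hreg : UniformlyRegular X) (hpc : IsConnected Xᶜ) (hint : IsConnected (interior X))
    (hdense : X ⊆ closure (interior X)) : A1 X ⊆ D1 X := by
  classical
  rintro f ⟨F, g, hF, hFd, hg⟩
  obtain ⟨k, hk, hpath⟩ := hreg
  obtain ⟨a0, ha0⟩ := hint.nonempty
  have ha0X : a0 ∈ X := interior_subset ha0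
  -- the extension of the derivative
  set h : ℂ → ℂ := fun z => if hz : z ∈ X then g ⟨z, hz⟩ else 0 with hh
  have hval : ∀ z : X, h z = g z := fun z => by simp [hh, z.2]
  have hcont : ContinuousOn h X := by
    rw [continuousOn_iff_continuous_domRestrict]
    have : X.domRestrict h = g := by
      ext z
      exact hval z
    rw [this]
    exact g.continuous
  have hder : ∀ z ∈ interior X, h z = deriv F z := fun z hz => by
    have := hg ⟨z, interior_subset hz⟩ hz
    rw [← this]
    exact hval ⟨z, interior_subset hz⟩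
  have hhol : DifferentiableOn ℂ h (interior X) :=
    (hFd.deriv isOpen_interior).congr hder
  -- polynomials
  have hq : ∀ n : ℕ, ∃ p : Polynomial ℂ, ∀ z ∈ X, ‖p.eval z - h z‖ < 1 / ((n : ℝ) + 1) := fun n =>
    ZFM.J_q5b.mergelyan hX hpc h hcont hhol _ (by positivity)
  choose q hq using hq
  have hQ : ∀ n : ℕ, ∃ P : Polynomial ℂ, Polynomial.derivative P = q n := fun n =>
    Pool.Agent.V11110.MG.antider (q n)
  choose Q hQ using hQ
  have hQd : ∀ n z, HasDerivAt (fun z => (Q n).eval z) ((q n).eval z) z := fun n z => by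
    rw [← hQ n]
    exact (Q n).hasDerivAt z
  -- the normalised primitives
  set S : ℕ → ℂ → ℂ := fun n z => (Q n).eval z - (Q n).eval a0 + F a0 with hS
  have htends : Tendsto (fun n : ℕ => 1 / ((n : ℝ) + 1)) atTop (𝓝 0) :=
    tendsto_one_div_add_atTop_nhds_zero_nat
  have hcau : ∀ z ∈ X, CauchySeq (fun n => S n z) := by
    intro z hz
    obtain ⟨γ, hγ, hγX, hγ0, hγ1, hγV⟩ := hpath a0 ha0X z hz
    have hL : 0 ≤ k * ‖a0 - z‖ := by positivity
    have hb : ∀ n m : ℕ, dist (S n z) (S m z)
        ≤ (1 / ((n : ℝ) + 1) + 1 / ((m : ℝ) + 1)) * (k * ‖a0 - z‖) := by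
      intro n m
      have := Pool.Agent.V11110.MG.path_est (fun z => (Q n).eval z - (Q m).eval z)
        (fun z => (q n).eval z - (q m).eval z) (fun z => (hQd n z).sub (hQd m z))
        ((q n).continuous.sub (q m).continuous) (1 / ((n : ℝ) + 1) + 1 / ((m : ℝ) + 1)) γ hγ
        (k * ‖a0 - z‖) hL (by
          intro t ht
          have e1 := hq n _ (hγX t ht)
          have e2 := hq m _ (hγX t ht)
          have e3 : (q n).eval (γ t) - (q m).eval (γ t)
              = ((q n).eval (γ t) - h (γ t)) - ((q m).eval (γ t) - h (γ t)) := by ring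
          rw [e3]
          exact (norm_sub_le _ _).trans (by linarith)) hγV
      rw [hγ0, hγ1] at this
      rw [dist_eq_norm]
      refine le_trans (le_of_eq ?_) this
      congr 1
      simp only [hS]
      ring
    refine cauchySeq_of_le_tendsto_0 (fun n => 2 * (1 / ((n : ℝ) + 1)) * (k * ‖a0 - z‖)) ?_ ?_
    · intro n m N hn hm
      refine (hb n m).trans ?_
      apply mul_le_mul_of_nonneg_right _ hL
      have e1 : 1 / ((n : ℝ) + 1) ≤ 1 / ((N : ℝ) + 1) := by
        apply one_div_le_one_div_of_le (by positivity)
        have : (N : ℝ) ≤ n := by exact_mod_cast hn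
        linarith
      have e2 : 1 / ((m : ℝ) + 1) ≤ 1 / ((N : ℝ) + 1) := by
        apply one_div_le_one_div_of_le (by positivity)
        have : (N : ℝ) ≤ m := by exact_mod_cast hm
        linarith
      linarith
    · have := (htends.const_mul 2).mul_const (k * ‖a0 - z‖)
      simpa using this
  have hlim : ∀ z : ℂ, ∃ l : ℂ, z ∈ X → Tendsto (fun n => S n z) atTop (𝓝 l) := by
    intro z
    by_cases hz : z ∈ X
    · obtain ⟨l, hl⟩ := cauchySeq_tendsto_of_complete (hcau z hz)
      exact ⟨l, fun _ => hl⟩
    · exact ⟨0, fun h => absurd h hz⟩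
  choose G hG using hlim
  -- main estimate
  have hE : ∀ z ∈ X, ∀ w ∈ X, ∀ (c : ℂ) (M : ℝ), (∀ y ∈ X, ‖y - z‖ ≤ k * ‖z - w‖ → ‖h y - c‖ ≤ M) →
      ‖G w - G z - c * (w - z)‖ ≤ M * (k * ‖z - w‖) := by
    intro z hz w hw c M hM
    obtain ⟨γ, hγ, hγX, hγ0, hγ1, hγV⟩ := hpath z hz w hw
    have hL : 0 ≤ k * ‖z - w‖ := by positivity
    have hnear : ∀ t ∈ Icc (0 : ℝ) 1, ‖γ t - z‖ ≤ k * ‖z - w‖ := by
      intro t ht
      have e := (eVariationOn.edist_le γ ht (left_mem_Icc.2 zero_le_one)).trans hγV
      rw [hγ0, edist_dist, dist_eq_norm] at e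
      exact (ENNReal.ofReal_le_ofReal_iff hL).1 e
    have hb : ∀ n : ℕ, ‖S n w - S n z - c * (w - z)‖
        ≤ (M + 1 / ((n : ℝ) + 1)) * (k * ‖z - w‖) := by
      intro n
      have := Pool.Agent.V11110.MG.path_est (fun z => (Q n).eval z - c * z)
        (fun z => (q n).eval z - c) (fun z => (hQd n z).sub (by
          simpa using (hasDerivAt_id z).const_mul c))
        ((q n).continuous.sub continuous_const) (M + 1 / ((n : ℝ) + 1)) γ hγ
        (k * ‖z - w‖) hL (by
          intro t ht
          have e1 := hq n _ (hγX t ht)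
          have e2 := hM _ (hγX t ht) (hnear t ht)
          have e3 : (q n).eval (γ t) - c
              = ((q n).eval (γ t) - h (γ t)) + (h (γ t) - c) := by ring
          rw [e3]
          exact (norm_add_le _ _).trans (by linarith)) hγV
      rw [hγ0, hγ1] at this
      refine le_trans (le_of_eq ?_) this
      congr 1
      simp only [hS]
      ring
    have t1 : Tendsto (fun n => ‖S n w - S n z - c * (w - z)‖) atTop
        (𝓝 ‖G w - G z - c * (w - z)‖) :=
      (((hG w hw).sub (hG z hz)).sub_const _).norm
    have t2 : Tendsto (fun n : ℕ => (M + 1 / ((n : ℝ) + 1)) * (k * ‖z - w‖)) atTop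
        (𝓝 (M * (k * ‖z - w‖))) := by
      have := (htends.const_add M).mul_const (k * ‖z - w‖)
      simpa using this
    exact le_of_tendsto_of_tendsto' t1 t2 hb
  have hGd : ∀ z ∈ X, HasDerivWithinAt G (h z) X z := by
    intro z hz
    rw [hasDerivWithinAt_iff_isLittleO, Asymptotics.isLittleO_iff]
    intro ε hε
    obtain ⟨δ, hδ, hδ'⟩ := Metric.continuousOn_iff.1 hcont z hz (ε / k) (by positivity)
    have hev : ∀ᶠ w in 𝓝[X] z, w ∈ X ∧ k * ‖z - w‖ < δ := by
      refine eventually_mem_nhdsWithin.and (eventually_nhdsWithin_of_eventually_nhds ?_)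
      have : ContinuousAt (fun w => k * ‖z - w‖) z := by fun_prop
      apply this.eventually_lt continuousAt_const
      simpa using hδ
    filter_upwards [hev] with w hw
    have := hE z hz w hw.1 (h z) (ε / k) (by
      intro y hy hyz
      have := hδ' y hy (by rw [dist_eq_norm]; exact hyz.trans_lt hw.2)
      rw [dist_eq_norm] at this
      exact this.le)
    have e : ε / k * (k * ‖z - w‖) = ε * ‖w - z‖ := by
      rw [norm_sub_rev z w]
      field_simp
    rw [e] at this
    rw [smul_eq_mul, mul_comm (w - z)]
    exact this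
  -- comparison with F
  have hFD : ∀ z ∈ interior X, HasDerivAt F (h z) z := fun z hz => by
    rw [hder z hz]
    exact (hFd.differentiableAt (isOpen_interior.mem_nhds hz)).hasDerivAt
  have hGD : ∀ z ∈ interior X, HasDerivAt G (h z) z := fun z hz =>
    (hGd z (interior_subset hz)).hasDerivAt (mem_interior_iff_mem_nhds.1 hz)
  have hGa : G a0 = F a0 := by
    have e : Tendsto (fun n => S n a0) atTop (𝓝 (F a0)) := by
      have : (fun n => S n a0) = fun _ => F a0 := by
        funext n
        simp [hS]
      rw [this]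
      exact tendsto_const_nhds
    exact tendsto_nhds_unique (hG a0 ha0X) e
  have hGF : EqOn G F (interior X) := by
    intro z hz
    have hdiff : ∀ y ∈ interior X, HasDerivAt (fun y => G y - F y) 0 y := fun y hy => by
      have e := (hGD y hy).sub (hFD y hy)
      rw [sub_self] at e
      exact e
    have := isOpen_interior.is_const_of_deriv_eq_zero hint.isPreconnected
      (f := fun y => G y - F y)
      (fun y hy => (hdiff y hy).differentiableAt.differentiableWithinAt)
      (fun y hy => (hdiff y hy).deriv) hz ha0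
    simp only [hGa, sub_self] at this
    exact sub_eq_zero.1 this
  have hFc : ContinuousOn F X := by
    rw [continuousOn_iff_continuous_domRestrict]
    have : X.domRestrict F = f := by
      ext z
      exact hF z
    rw [this]
    exact f.continuous
  have hGc : ContinuousOn G X := fun z hz => (hGd z hz).continuousWithinAt
  have hall : EqOn G F X := hGF.of_subset_closure hGc hFc interior_subset hdense
  refine ⟨G, g, fun z => ?_, fun a => ?_⟩
  · rw [hall z.2, hF z]
  · rw [← hval a]
    exact hGd a a.2

/-- **Answer to Q1 (negative).** For every uniformly regular, polynomially convex compact plane set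
`X` whose interior is connected and dense in `X`, `D⁽¹⁾(X) = A⁽¹⁾(X)`. -/
theorem result (X : Set ℂ) (hX : IsCompact X)
    (hreg : UniformlyRegular X) (hpc : IsConnected Xᶜ) (hint : IsConnected (interior X))
    (hdense : X ⊆ closure (interior X)) : D1 X = A1 X :=
  (D1_subset X).antisymm (A1_subset X hX hreg hpc hint hdense)

end Pool.Agent.Results.MP_8e12aa_an.EqualAlgebras
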